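import Pool.Agent.Y814.RSZ.Mj2
import Pool.Agent.TH423.SH.PRDP

/-!
Project RSZ (helper677), task MAJ, part 4: the sieve products and the definition of the majorant.
-/

set_option autoImplicit false

open Finset

namespace Pool.Agent.Y814.RSZ

open Pool.Agent.TH423.SH (PS PIj)
open Pool.Agent.Y917.PSP (TT Dl wt mem_TT Dl_pos div_bound)
open Pool.Agent.Y677.RSZ

theorem fac_pos (r p : ℕ) (h : r < p) : 0 < 1 - (r : ℝ) / p := by
  have hp : (0 : ℝ) < p := by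
    have : 0 < p := by omega
    exact_mod_cast this
  rw [sub_pos, div_lt_one hp]
  exact_mod_cast h

theorem fac_le_one (r p : ℕ) : 1 - (r : ℝ) / p ≤ 1 := by
  have : (0 : ℝ) ≤ (r : ℝ) / p := by positivity
  linarith

theorem V_pos {g : ℕ} {F : ℤ → ℤ} (hS : Sys g F) (W z : ℕ) : 0 < V F W z := by
  unfold V
  apply prod_pos
  intro p hp
  rw [mem_PS] at hp
  exact fac_pos _ _ (hS.root p hp.2.1).2

theorem PR_pos {g : ℕ} {F : ℤ → ℤ} (hS : Sys g F) (z R : ℕ) : 0 < PR (rt F) z R := by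
  unfold PR
  apply prod_pos
  intro p hp
  rw [mem_filter] at hp
  exact fac_pos _ _ (hS.root p hp.2).2

/-- a lower bound for a partial product -/
theorem prod_low {g : ℕ} {F : ℤ → ℤ} (hS : Sys g F) (R : ℕ) (S : Finset ℕ)
    (hsub : S ⊆ PS (2 * (g + 1)).factorial R) :
    PIj (2 * (g + 1)).factorial R g ≤ ∏ p ∈ S, (1 - (rt F p : ℝ) / p) := by
  have hf : ∀ p ∈ PS (2 * (g + 1)).factorial R, 0 < 1 - (g : ℝ) / (p : ℝ) := by
    intro p hp
    rw [mem_PS] at hp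
    apply fac_pos
    by_contra h
    exact hp.2.2 ((Nat.Prime.dvd_factorial hp.2.1).2 (by omega))
  unfold PIj
  rw [← prod_sdiff hsub]
  have h1 : ∏ p ∈ PS (2 * (g + 1)).factorial R \ S, (1 - (g : ℝ) / (p : ℝ)) ≤ 1 :=
    prod_le_one (fun p hp => (hf p (mem_sdiff.1 hp).1).le) (fun p _ => fac_le_one _ _)
  have h2 : ∏ p ∈ S, (1 - (g : ℝ) / (p : ℝ)) ≤ ∏ p ∈ S, (1 - (rt F p : ℝ) / p) := by
    apply prod_le_prod
    · intro p hp
      exact (hf p (hsub hp)).le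
    · intro p hp
      have hp2 := (mem_PS.1 (hsub hp)).2.1
      have : (rt F p : ℝ) ≤ g := by exact_mod_cast (hS.root p hp2).1
      have hp0 : (0 : ℝ) < p := by exact_mod_cast hp2.pos
      gcongr
  have h3 : 0 ≤ ∏ p ∈ S, (1 - (g : ℝ) / (p : ℝ)) := prod_nonneg fun p hp => (hf p (hsub hp)).le
  exact (mul_le_of_le_one_left h3 h1).trans h2

theorem V_low {g : ℕ} {F : ℤ → ℤ} (hS : Sys g F) (W z : ℕ)
    (hW : ∀ p : ℕ, p.Prime → p ≤ 2 * (g + 1) → p ∣ W) :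
    PIj (2 * (g + 1)).factorial z g ≤ V F W z := by
  unfold V
  apply prod_low hS
  intro p hp
  rw [mem_PS] at hp ⊢
  refine ⟨hp.1, hp.2.1, fun h => hp.2.2 (hW p hp.2.1 ((Nat.Prime.dvd_factorial hp.2.1).1 h))⟩

theorem PR_low {g : ℕ} {F : ℤ → ℤ} (hS : Sys g F) (z R : ℕ) (hz : 2 * (g + 1) ≤ z) :
    PIj (2 * (g + 1)).factorial R g ≤ PR (rt F) z R := by
  unfold PR
  apply prod_low hS
  intro p hp
  rw [mem_filter, mem_Ioc] at hp
  rw [mem_PS]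
  refine ⟨⟨by omega, hp.1.2⟩, hp.2, fun h => ?_⟩
  have := (Nat.Prime.dvd_factorial hp.2).1 h
  omega

theorem V_split (F : ℤ → ℤ) (W z R : ℕ) (hW1 : 1 ≤ W) (hWz : W ≤ z) (hzR : z ≤ R) :
    V F W R = V F W z * PR (rt F) z R := by
  have e : PS W R = PS W z ∪ (Ioc z R).filter Nat.Prime := by
    ext p
    rw [mem_union, mem_PS, mem_PS, mem_filter, mem_Ioc]
    constructor
    · rintro ⟨⟨h1, h2⟩, h3, h4⟩
      rcases le_or_gt p z with h | h
      · exact Or.inl ⟨⟨h1, h⟩, h3, h4⟩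
      · exact Or.inr ⟨⟨h, h2⟩, h3⟩
    · rintro (⟨⟨h1, h2⟩, h3, h4⟩ | ⟨⟨h1, h2⟩, h3⟩)
      · exact ⟨⟨h1, h2.trans hzR⟩, h3, h4⟩
      · refine ⟨⟨by omega, h2⟩, h3, fun h => ?_⟩
        have := Nat.le_of_dvd hW1 h
        omega
  have hd : Disjoint (PS W z) ((Ioc z R).filter Nat.Prime) := by
    rw [disjoint_left]
    intro p hp hp2
    rw [mem_PS] at hp
    rw [mem_filter, mem_Ioc] at hp2
    omega
  unfold V PR
  rw [e, prod_union hd]

theorem PR_mer {g : ℕ} {F : ℤ → ℤ} (hS : Sys g F) (R H : ℕ) (hR : 2 * g + 2 ≤ R) (c : ℝ)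
    (h : c ≤ ∏ p ∈ (Ioc R H).filter Nat.Prime, (1 - (g : ℝ) / p)) : c ≤ PR (rt F) R H := by
  refine h.trans ?_
  unfold PR
  apply prod_le_prod
  · intro p hp
    rw [mem_filter, mem_Ioc] at hp
    exact (fac_pos g p (by omega)).le
  · intro p hp
    rw [mem_filter] at hp
    have : (rt F p : ℝ) ≤ g := by exact_mod_cast (hS.root p hp.2).1
    have hp0 : (0 : ℝ) < p := by exact_mod_cast hp.2.pos
    gcongr

open Classical in
/-- the majorant -/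
noncomputable def nuM (F : ℤ → ℤ) (W z R : ℕ) (lam : ℕ → ℝ) (VG : ℝ) (n : ℕ) : ℝ :=
  if ∀ p ∈ PS W z, ¬ (p : ℤ) ∣ F (n : ℤ) then ds R lam (F (n : ℤ)) ^ 2 / VG else 0

open Classical in
theorem sum_nuM (F : ℤ → ℤ) (W z R b M₀ L m : ℕ) (lam : ℕ → ℝ) (VG : ℝ) (t : Fin m → ℕ) :
    ∑ K ∈ Ioc M₀ (M₀ + L), ∏ i, nuM F W z R lam VG (W * (K + t i) + b) =
      (∑ x ∈ Fintype.piFinset (fun _ : Fin m => TT R lam), (∏ i, wt lam (x i)) *
        cn F W z b M₀ L t x) / VG ^ m := by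
  have h0 := expand R lam (fun (i : Fin m) (K : ℕ) => F ((W * (K + t i) + b : ℕ) : ℤ))
    ((Ioc M₀ (M₀ + L)).filter (fun K => ∀ p ∈ PS W z, ∀ i, ¬ (p : ℤ) ∣ F ((W * (K + t i) + b : ℕ) : ℤ)))
  have h1 : ∑ x ∈ Fintype.piFinset (fun _ : Fin m => TT R lam), (∏ i, wt lam (x i)) *
        cn F W z b M₀ L t x = ∑ K ∈ (Ioc M₀ (M₀ + L)).filter
        (fun K => ∀ p ∈ PS W z, ∀ i, ¬ (p : ℤ) ∣ F ((W * (K + t i) + b : ℕ) : ℤ)),
        ∏ i, ds R lam (F ((W * (K + t i) + b : ℕ) : ℤ)) ^ 2 := by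
    rw [h0]
    apply sum_congr rfl
    intro x _
    unfold cn
    congr! 3
  rw [h1, sum_div, sum_filter]
  apply sum_congr rfl
  intro K _
  unfold nuM
  rw [prod_ite_zero]
  by_cases h : ∀ p ∈ PS W z, ∀ i, ¬ (p : ℤ) ∣ F ((W * (K + t i) + b : ℕ) : ℤ)
  · rw [if_pos h, if_pos fun i _ p hp => h p hp i, prod_div_distrib, prod_const, card_univ, Fintype.card_fin]
  · rw [if_neg h, if_neg]
    intro h2
    exact h fun p hp i => h2 i (mem_univ i) p hp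

end Pool.Agent.Y814.RSZ
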