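import Pool.Agent.Y917.PSP.Maj2
import Pool.Agent.Y677.RSZ.Stm

/-!
Project RSZ (helper677), task MAJ, part 1: expansion of the squares of the sieve weights and the main term.
-/

set_option autoImplicit false

open Finset

namespace Pool.Agent.Y814.RSZ

open Pool.Agent.Y917.PSP (TT Dl wt mem_TT Dl_pos sum_pi sum_TT_le one_le_L lcm_sum_one lcm_sum_prime noncop)
open Pool.Agent.Y677.RSZ

theorem qfr_eq (r : ℕ → ℕ) (R : ℕ) (lam : ℕ → ℝ) :
    qfr r R lam = ∑ t ∈ TT R lam, wt lam t * ((rs r (Dl t) : ℝ) / (Dl t : ℝ)) := by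
  classical
  unfold qfr TT
  rw [sum_filter, sum_product]
  apply sum_congr rfl
  intro d _
  apply sum_congr rfl
  intro e _
  split_ifs with h
  · rfl
  · have : lam d * lam e = 0 := by
      by_contra h2
      exact h ⟨left_ne_zero_of_mul h2, right_ne_zero_of_mul h2⟩
    rw [this, zero_mul]

open Classical in
/-- the divisor sum -/
noncomputable def ds (R : ℕ) (lam : ℕ → ℝ) (x : ℤ) : ℝ :=
  ∑ d ∈ (Icc 1 R).filter (fun d : ℕ => (d : ℤ) ∣ x), lam d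

theorem ds_eq (R : ℕ) (lam : ℕ → ℝ) (hlam : ∀ d, lam d ≠ 0 → 1 ≤ d ∧ d ≤ R) (x : ℤ) (hx : x ≠ 0) :
    ds R lam x = ∑ d ∈ x.natAbs.divisors, lam d := by
  classical
  unfold ds
  rw [← sum_filter_ne_zero, ← sum_filter_ne_zero (x.natAbs.divisors)]
  apply sum_congr _ fun _ _ => rfl
  ext d
  simp only [mem_filter, Nat.mem_divisors, mem_Icc, Int.natCast_dvd]
  constructor
  · rintro ⟨⟨_, h1⟩, h2⟩
    exact ⟨⟨h1, Int.natAbs_ne_zero.2 hx⟩, h2⟩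
  · rintro ⟨⟨h1, _⟩, h2⟩
    exact ⟨⟨hlam d h2, h1⟩, h2⟩

theorem lcm_dvd_int (d e : ℕ) (x : ℤ) : ((Nat.lcm d e : ℕ) : ℤ) ∣ x ↔ (d : ℤ) ∣ x ∧ (e : ℤ) ∣ x := by
  rw [Int.natCast_dvd, Int.natCast_dvd, Int.natCast_dvd, Nat.lcm_dvd_iff]

theorem ds_sq (R : ℕ) (lam : ℕ → ℝ) (x : ℤ) :
    ds R lam x ^ 2 = ∑ t ∈ TT R lam, (if (Dl t : ℤ) ∣ x then wt lam t else 0) := by
  classical
  have h1 : ds R lam x = ∑ d ∈ Icc 1 R, (if (d : ℤ) ∣ x then lam d else 0) := by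
    unfold ds
    rw [← sum_filter]
  rw [h1, pow_two, sum_mul_sum]
  unfold TT
  rw [sum_filter, sum_product]
  apply sum_congr rfl
  intro d _
  apply sum_congr rfl
  intro e _
  simp only [Dl, wt, lcm_dvd_int]
  by_cases h : lam d ≠ 0 ∧ lam e ≠ 0
  · rw [if_pos h]
    split_ifs <;> simp_all
  · rw [if_neg h]
    have : lam d = 0 ∨ lam e = 0 := by
      by_contra h2
      push Not at h2
      exact h h2
    rcases this with h2 | h2 <;> rw [h2] <;> simp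

open Classical in
/-- the expansion of a product of squares -/
theorem expand (R : ℕ) (lam : ℕ → ℝ) {m : ℕ} (n : Fin m → ℕ → ℤ) (S : Finset ℕ) :
    ∑ K ∈ S, ∏ i, ds R lam (n i K) ^ 2 =
      ∑ x ∈ Fintype.piFinset (fun _ : Fin m => TT R lam), (∏ i, wt lam (x i)) *
        ((S.filter (fun K => ∀ i, (Dl (x i) : ℤ) ∣ n i K)).card : ℝ) := by
  have h1 : ∀ K ∈ S, ∏ i, ds R lam (n i K) ^ 2 =
      ∑ x ∈ Fintype.piFinset (fun _ : Fin m => TT R lam),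
        (if ∀ i, (Dl (x i) : ℤ) ∣ n i K then ∏ i, wt lam (x i) else 0) := by
    intro K _
    rw [prod_congr rfl fun i _ => ds_sq R lam (n i K), prod_univ_sum]
    apply sum_congr rfl
    intro x _
    rw [prod_ite_zero]
    simp
  rw [sum_congr rfl h1, sum_comm]
  apply sum_congr rfl
  intro x _
  rw [← sum_filter, sum_const, nsmul_eq_mul, mul_comm]

open Classical in
/-- the tuples with a common prime factor contribute little -/
theorem noncopT (m R z : ℕ) (lam : ℕ → ℝ) (hz : 1 ≤ z)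
    (hlam : ∀ d, lam d ≠ 0 → 1 ≤ d ∧ d ≤ R ∧ ∀ p : ℕ, p.Prime → p ∣ d → z < p)
    (ρ : ℕ → ℝ) (T : ℝ) (hT : 0 ≤ T) (hρ0 : ∀ t ∈ TT R lam, 0 ≤ ρ (Dl t))
    (hρT : ∀ t ∈ TT R lam, ρ (Dl t) ≤ T) :
    ∑ x ∈ Fintype.piFinset (fun _ : Fin m => TT R lam),
      (if ∀ i j, i ≠ j → Nat.Coprime (Dl (x i)) (Dl (x j)) then 0 else
        ∏ i, (ρ (Dl (x i)) / (Dl (x i) : ℝ))) ≤
      T ^ m * (16 * m ^ 2 * ((1 + Real.log R) ^ 3) ^ m / z) := by
  have h1 : ∀ x ∈ Fintype.piFinset (fun _ : Fin m => TT R lam),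
      (if ∀ i j, i ≠ j → Nat.Coprime (Dl (x i)) (Dl (x j)) then 0 else
        ∏ i, (ρ (Dl (x i)) / (Dl (x i) : ℝ))) ≤
      T ^ m * (if ∀ i j, i ≠ j → Nat.Coprime (Dl (x i)) (Dl (x j)) then 0 else
        ∏ i, (1 : ℝ) / (Dl (x i) : ℝ)) := by
    intro x hx
    rw [Fintype.mem_piFinset] at hx
    split_ifs with hc
    · rw [mul_zero]
    · have e1 : T ^ m * ∏ i, (1 : ℝ) / (Dl (x i) : ℝ) = ∏ i, (T / (Dl (x i) : ℝ)) := by
        have : T ^ m = ∏ _i : Fin m, T := by rw [prod_const, card_univ, Fintype.card_fin]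
        rw [this, ← prod_mul_distrib]
        exact prod_congr rfl fun i _ => mul_one_div _ _
      rw [e1]
      apply prod_le_prod
      · intro i _
        exact div_nonneg (hρ0 _ (hx i)) (Nat.cast_nonneg _)
      · intro i _
        exact div_le_div_of_nonneg_right (hρT _ (hx i)) (Nat.cast_nonneg _)
  refine (sum_le_sum h1).trans ?_
  rw [← mul_sum]
  exact mul_le_mul_of_nonneg_left (noncop m R z lam hz hlam) (by positivity)

/-- the main term of the correlation -/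
theorem corr (m R z : ℕ) (lam : ℕ → ℝ) (hz : 1 ≤ z)
    (hlam : ∀ d, lam d ≠ 0 → 1 ≤ d ∧ d ≤ R ∧ ∀ p : ℕ, p.Prime → p ∣ d → z < p) (hl1 : ∀ d, |lam d| ≤ 1)
    (ρ : ℕ → ℝ) (T : ℝ) (hT : 0 ≤ T) (hρ0 : ∀ t ∈ TT R lam, 0 ≤ ρ (Dl t))
    (hρT : ∀ t ∈ TT R lam, ρ (Dl t) ≤ T)
    (cnt : (Fin m → ℕ × ℕ) → ℝ) (Y ε E : ℝ) (hY : 0 ≤ Y) (hε : 0 ≤ ε) (hE : 0 ≤ E)
    (hcop : ∀ x, (∀ i, x i ∈ TT R lam) → (∀ i j, i ≠ j → Nat.Coprime (Dl (x i)) (Dl (x j))) →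
      |cnt x - Y * ∏ i, (ρ (Dl (x i)) / (Dl (x i) : ℝ))| ≤
        ε * (Y * ∏ i, (ρ (Dl (x i)) / (Dl (x i) : ℝ))) + E)
    (hncop : ∀ x, (∀ i, x i ∈ TT R lam) → ¬ (∀ i j, i ≠ j → Nat.Coprime (Dl (x i)) (Dl (x j))) → cnt x = 0) :
    |∑ x ∈ Fintype.piFinset (fun _ : Fin m => TT R lam), (∏ i, wt lam (x i)) * cnt x -
      Y * (∑ t ∈ TT R lam, wt lam t * (ρ (Dl t) / (Dl t : ℝ))) ^ m| ≤
      Y * (16 * m ^ 2 * (T * (1 + Real.log R) ^ 3) ^ m / z + ε * (T * (1 + Real.log R) ^ 3) ^ m) +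
        (R : ℝ) ^ (2 * m) * E := by
  classical
  have e1 : (∑ t ∈ TT R lam, wt lam t * (ρ (Dl t) / (Dl t : ℝ))) ^ m =
      ∑ x ∈ Fintype.piFinset (fun _ : Fin m => TT R lam),
      (∏ i, wt lam (x i)) * ∏ i, (ρ (Dl (x i)) / (Dl (x i) : ℝ)) := by
    have h1 : ∀ x ∈ Fintype.piFinset (fun _ : Fin m => TT R lam),
        (∏ i, wt lam (x i)) * ∏ i, (ρ (Dl (x i)) / (Dl (x i) : ℝ)) =
        ∏ i, (wt lam (x i) * (ρ (Dl (x i)) / (Dl (x i) : ℝ))) := by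
      intro x _
      rw [← prod_mul_distrib]
    rw [sum_congr rfl h1, sum_pi (fun _ t => wt lam t * (ρ (Dl t) / (Dl t : ℝ))), prod_const, card_univ,
      Fintype.card_fin]
  rw [e1, mul_sum, ← sum_sub_distrib]
  refine (abs_sum_le_sum_abs _ _).trans ?_
  have hq0 : ∀ x : Fin m → ℕ × ℕ, (∀ i, x i ∈ TT R lam) → 0 ≤ ∏ i : Fin m, (ρ (Dl (x i)) / (Dl (x i) : ℝ)) :=
    fun x hx => prod_nonneg fun i _ => div_nonneg (hρ0 _ (hx i)) (Nat.cast_nonneg _)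
  have h1 : ∀ x ∈ Fintype.piFinset (fun _ : Fin m => TT R lam),
      |(∏ i, wt lam (x i)) * cnt x - Y * ((∏ i, wt lam (x i)) * ∏ i, (ρ (Dl (x i)) / (Dl (x i) : ℝ)))| ≤
      Y * (if ∀ i j, i ≠ j → Nat.Coprime (Dl (x i)) (Dl (x j)) then 0 else
        ∏ i, (ρ (Dl (x i)) / (Dl (x i) : ℝ))) +
      (ε * (Y * ∏ i, (ρ (Dl (x i)) / (Dl (x i) : ℝ))) + E) := by
    intro x hx
    rw [Fintype.mem_piFinset] at hx
    have hp : 0 ≤ ∏ i, (ρ (Dl (x i)) / (Dl (x i) : ℝ)) := hq0 x hx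
    have hw : |∏ i, wt lam (x i)| ≤ 1 := by
      rw [abs_prod]
      apply prod_le_one
      · intro i _
        exact abs_nonneg _
      · intro i _
        unfold wt
        rw [abs_mul]
        exact mul_le_one₀ (hl1 _) (abs_nonneg _) (hl1 _)
    have e2 : (∏ i, wt lam (x i)) * cnt x -
        Y * ((∏ i, wt lam (x i)) * ∏ i, (ρ (Dl (x i)) / (Dl (x i) : ℝ))) =
        (∏ i, wt lam (x i)) * (cnt x - Y * ∏ i, (ρ (Dl (x i)) / (Dl (x i) : ℝ))) := by ring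
    rw [e2, abs_mul]
    have h3 : |∏ i, wt lam (x i)| * |cnt x - Y * ∏ i, (ρ (Dl (x i)) / (Dl (x i) : ℝ))| ≤
        |cnt x - Y * ∏ i, (ρ (Dl (x i)) / (Dl (x i) : ℝ))| := mul_le_of_le_one_left (abs_nonneg _) hw
    refine h3.trans ?_
    have h4 : 0 ≤ ε * (Y * ∏ i, (ρ (Dl (x i)) / (Dl (x i) : ℝ))) := by positivity
    by_cases hc : ∀ i j, i ≠ j → Nat.Coprime (Dl (x i)) (Dl (x j))
    · rw [if_pos hc, mul_zero, zero_add]
      exact hcop x hx hc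
    · rw [if_neg hc, hncop x hx hc, zero_sub, abs_neg, abs_of_nonneg (by positivity)]
      linarith
  refine (sum_le_sum h1).trans ?_
  rw [sum_add_distrib, sum_add_distrib, ← mul_sum, ← mul_sum, ← mul_sum, sum_const, nsmul_eq_mul]
  have h2 := noncopT m R z lam hz hlam ρ T hT hρ0 hρT
  have hTL : (T * (1 + Real.log R) ^ 3) ^ m = T ^ m * ((1 + Real.log R) ^ 3) ^ m := mul_pow _ _ _
  have h3 : ∑ x ∈ Fintype.piFinset (fun _ : Fin m => TT R lam), ∏ i, (ρ (Dl (x i)) / (Dl (x i) : ℝ)) ≤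
      (T * (1 + Real.log R) ^ 3) ^ m := by
    rw [sum_pi (fun _ t => (ρ (Dl t) / (Dl t : ℝ))), prod_const, card_univ, Fintype.card_fin]
    apply pow_le_pow_left₀ (sum_nonneg fun t ht => div_nonneg (hρ0 _ ht) (Nat.cast_nonneg _))
    calc ∑ t ∈ TT R lam, (ρ (Dl t) / (Dl t : ℝ)) ≤ ∑ t ∈ TT R lam, T * ((1 : ℝ) / (Dl t : ℝ)) := by
          apply sum_le_sum
          intro t ht
          rw [mul_one_div]
          exact div_le_div_of_nonneg_right (hρT _ ht) (Nat.cast_nonneg _)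
      _ = T * ∑ t ∈ TT R lam, (1 : ℝ) / (Dl t : ℝ) := by rw [mul_sum]
      _ ≤ T * (1 + Real.log R) ^ 3 := by
          apply mul_le_mul_of_nonneg_left _ hT
          exact (sum_TT_le R lam (fun n : ℕ => (1 : ℝ) / (n : ℝ)) fun n => by positivity).trans (lcm_sum_one R)
  have h4 : ((Fintype.piFinset (fun _ : Fin m => TT R lam)).card : ℝ) ≤ (R : ℝ) ^ (2 * m) := by
    rw [Fintype.card_piFinset, prod_const, card_univ, Fintype.card_fin, pow_mul]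
    push_cast
    apply pow_le_pow_left₀ (Nat.cast_nonneg _)
    have h5 : (TT R lam).card ≤ R ^ 2 := by
      unfold TT
      refine (card_filter_le _ _).trans ?_
      rw [card_product, Nat.card_Icc, pow_two]
      simp
    exact_mod_cast h5
  have h5 := mul_le_mul_of_nonneg_left h2 hY
  have h6 : ε * (Y * ∑ x ∈ Fintype.piFinset (fun _ : Fin m => TT R lam),
      ∏ i, (ρ (Dl (x i)) / (Dl (x i) : ℝ))) ≤
      ε * (Y * (T * (1 + Real.log R) ^ 3) ^ m) := by gcongr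
  have h7 := mul_le_mul_of_nonneg_right h4 hE
  have h8 : T ^ m * (16 * m ^ 2 * ((1 + Real.log R) ^ 3) ^ m / z) =
      16 * m ^ 2 * (T * (1 + Real.log R) ^ 3) ^ m / z := by rw [hTL]; ring
  rw [h8] at h5
  linarith

end Pool.Agent.Y814.RSZ
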