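import Pool.Agent.Y814.RSZ.Mj1
import Pool.Agent.Y917.PSP.Maj3

/-!
Project RSZ (helper677), task MAJ, part 2: the number of solutions of the divisibility conditions.
-/

set_option autoImplicit false

open Finset

namespace Pool.Agent.Y814.RSZ

open Pool.Agent.Y917.PSP (TT Dl wt mem_TT Dl_pos div_bound)
open Pool.Agent.TH423.SH (PS)
open Pool.Agent.Y677.RSZ

theorem mem_PS {W R p : ℕ} : p ∈ PS W R ↔ (1 ≤ p ∧ p ≤ R) ∧ p.Prime ∧ ¬ p ∣ W := by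
  unfold PS
  rw [mem_filter, mem_Icc]

theorem per_add {F : ℤ → ℤ} {p : ℕ} (hper : ∀ n : ℤ, (p : ℤ) ∣ F (n + p) - F n) (n : ℤ) (k : ℤ) :
    (p : ℤ) ∣ F (n + p * k) - F n := by
  induction k using Int.induction_on with
  | zero => simp
  | succ i ih =>
    have h1 := hper (n + p * i)
    have e : n + (p : ℤ) * (i + 1) = n + p * i + p := by ring
    rw [e]
    have h2 := dvd_add h1 ih
    rwa [sub_add_sub_cancel] at h2
  | pred i ih =>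
    have h1 := hper (n + p * (-(i : ℤ) - 1))
    have e : n + (p : ℤ) * (-(i : ℤ) - 1) + p = n + p * (-(i : ℤ)) := by ring
    rw [e] at h1
    have h2 := dvd_sub ih h1
    have e2 : F (n + p * -(i : ℤ)) - F n - (F (n + p * -(i : ℤ)) - F (n + p * (-(i : ℤ) - 1))) =
        F (n + p * (-(i : ℤ) - 1)) - F n := by ring
    rwa [e2] at h2

/-- periodicity -/
theorem per_dvd {F : ℤ → ℤ} {p : ℕ} (hper : ∀ n : ℤ, (p : ℤ) ∣ F (n + p) - F n) (n n' : ℤ)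
    (h : (p : ℤ) ∣ n' - n) : (p : ℤ) ∣ F n' ↔ (p : ℤ) ∣ F n := by
  obtain ⟨k, hk⟩ := h
  have h1 := per_add hper n k
  rw [← hk] at h1
  have e : n + (n' - n) = n' := by ring
  rw [e] at h1
  exact (dvd_iff_dvd_of_dvd_sub h1)

theorem sqf_dvd {D : ℕ} (hD : Squarefree D) (x : ℤ) :
    (D : ℤ) ∣ x ↔ ∀ p : ℕ, p.Prime → p ∣ D → (p : ℤ) ∣ x := by
  simp only [Int.natCast_dvd]
  constructor
  · intro h p _ hpD
    exact hpD.trans h
  · intro h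
    rw [← Nat.prod_primeFactors_of_squarefree hD]
    apply Finset.prod_primes_dvd
    · intro p hp
      exact (Nat.prime_of_mem_primeFactors hp).prime
    · intro p hp
      exact h p (Nat.prime_of_mem_primeFactors hp) (Nat.dvd_of_mem_primeFactors hp)

theorem per_sqf {F : ℤ → ℤ} (hper : ∀ p : ℕ, p.Prime → ∀ n : ℤ, (p : ℤ) ∣ F (n + p) - F n) {D : ℕ}
    (hD : Squarefree D) (n n' : ℤ) (h : (D : ℤ) ∣ n' - n) : (D : ℤ) ∣ F n' ↔ (D : ℤ) ∣ F n := by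
  rw [sqf_dvd hD, sqf_dvd hD]
  constructor
  · intro h1 p hp hpD
    exact (per_dvd (hper p hp) n n' ((Int.natCast_dvd_natCast.2 hpD).trans h)).1 (h1 p hp hpD)
  · intro h1 p hp hpD
    exact (per_dvd (hper p hp) n n' ((Int.natCast_dvd_natCast.2 hpD).trans h)).2 (h1 p hp hpD)

theorem Dl_sqf {R : ℕ} {lam : ℕ → ℝ} (hlam : ∀ d, lam d ≠ 0 → Squarefree d) {t : ℕ × ℕ}
    (ht : t ∈ TT R lam) : Squarefree (Dl t) := by
  have h := mem_TT.1 ht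
  unfold Dl
  rw [Nat.squarefree_iff_factorization_le_one]
  · intro p
    rw [Nat.factorization_lcm (by have := h.1.1.1; omega) (by have := h.1.2.1; omega)]
    have h1 := (Nat.squarefree_iff_factorization_le_one (by have := h.1.1.1; omega)).1 (hlam _ h.2.1) p
    have h2 := (Nat.squarefree_iff_factorization_le_one (by have := h.1.2.1; omega)).1 (hlam _ h.2.2) p
    exact max_le h1 h2
  · have := Nat.lcm_pos h.1.1.1 h.1.2.1
    omega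

theorem Dl_primes {R z : ℕ} {lam : ℕ → ℝ} (hlam : ∀ d, lam d ≠ 0 → ∀ p : ℕ, p.Prime → p ∣ d → z < p)
    {t : ℕ × ℕ} (ht : t ∈ TT R lam) (p : ℕ) (hp : p.Prime) (hpt : p ∣ Dl t) : z < p := by
  have hxi := mem_TT.1 ht
  rcases (Nat.Prime.dvd_lcm hp).1 hpt with h1 | h1
  · exact hlam _ hxi.2.1 p hp h1
  · exact hlam _ hxi.2.2 p hp h1

open Classical in
/-- the number of `K` with the divisibility conditions -/
noncomputable def cn (F : ℤ → ℤ) (W z b M₀ L : ℕ) {m : ℕ} (t : Fin m → ℕ) (x : Fin m → ℕ × ℕ) : ℝ :=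
  ((((Ioc M₀ (M₀ + L)).filter
      (fun K => ∀ p ∈ PS W z, ∀ i, ¬ (p : ℤ) ∣ F ((W * (K + t i) + b : ℕ) : ℤ))).filter
      (fun K => ∀ i, (Dl (x i) : ℤ) ∣ F ((W * (K + t i) + b : ℕ) : ℤ))).card : ℝ)

open Classical in
/-- the classes -/
noncomputable def Cl (F : ℤ → ℤ) (W b : ℕ) {m : ℕ} (t D : Fin m → ℕ) : Finset ℕ :=
  (range (∏ i, D i)).filter (fun r : ℕ => ∀ i, (D i : ℤ) ∣ F ((W * (r + t i) + b : ℕ) : ℤ))

open Classical in
/-- decomposition into classes -/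
theorem cn_eq (F : ℤ → ℤ) (hper : ∀ p : ℕ, p.Prime → ∀ n : ℤ, (p : ℤ) ∣ F (n + p) - F n)
    (W z b M₀ L m : ℕ) (t : Fin m → ℕ) (x : Fin m → ℕ × ℕ) (hsq : ∀ i, Squarefree (Dl (x i)))
    (hpos : ∀ i, 1 ≤ Dl (x i)) :
    cn F W z b M₀ L t x = ∑ r ∈ Cl F W b t (fun i => Dl (x i)),
      (((Ioc M₀ (M₀ + L)).filter (fun K => K % (∏ i, Dl (x i)) = r % (∏ i, Dl (x i)) ∧
        ∀ p ∈ PS W z, ∀ i, ¬ (p : ℤ) ∣ F ((W * (K + t i) + b : ℕ) : ℤ))).card : ℝ) := by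
  set D := ∏ i, Dl (x i) with hD
  have hD0 : 0 < D := prod_pos fun i _ => hpos i
  -- the conditions depend only on the class
  have hmod : ∀ K : ℕ, ∀ i, ((Dl (x i) : ℤ) ∣ F ((W * (K + t i) + b : ℕ) : ℤ) ↔
      (Dl (x i) : ℤ) ∣ F ((W * (K % D + t i) + b : ℕ) : ℤ)) := by
    intro K i
    apply per_sqf hper (hsq i)
    have h1 : (Dl (x i) : ℤ) ∣ D := Int.natCast_dvd_natCast.2 (dvd_prod_of_mem _ (mem_univ i))
    have h2 : W * (K + t i) + b = W * (K % D + t i) + b + D * (W * (K / D)) := by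
      have := Nat.div_add_mod K D
      calc W * (K + t i) + b = W * (D * (K / D) + K % D + t i) + b := by rw [this]
        _ = _ := by ring
    have e : ((W * (K + t i) + b : ℕ) : ℤ) - ((W * (K % D + t i) + b : ℕ) : ℤ) =
        D * ((W * (K / D) : ℕ) : ℤ) := by
      rw [h2]
      push_cast
      ring
    rw [e]
    exact h1.mul_right _
  unfold cn
  rw [card_eq_sum_card_fiberwise (f := fun K => K % D) (t := Cl F W b t (fun i => Dl (x i)))]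
  · rw [Nat.cast_sum]
    apply sum_congr rfl
    intro r hr
    unfold Cl at hr
    rw [mem_filter, mem_range] at hr
    congr 2
    ext K
    simp only [mem_filter]
    rw [Nat.mod_eq_of_lt hr.1]
    constructor
    · rintro ⟨⟨⟨h1, h2⟩, _⟩, h4⟩
      exact ⟨h1, h4, h2⟩
    · rintro ⟨h1, h4, h2⟩
      refine ⟨⟨⟨h1, h2⟩, fun i => ?_⟩, h4⟩
      rw [hmod K i, h4]
      exact hr.2 i
  · intro K hK
    rw [mem_coe, mem_filter] at hK
    rw [mem_coe]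
    unfold Cl
    rw [mem_filter, mem_range]
    exact ⟨Nat.mod_lt _ hD0, fun i => (hmod K i).1 (hK.2 i)⟩

open Classical in
/-- the tuples with coprime moduli -/
theorem cnt_cop (hCls : S_CLS) (C b₀ W J m R : ℕ) (F : ℤ → ℤ)
    (hper : ∀ p : ℕ, p.Prime → ∀ n : ℤ, (p : ℤ) ∣ F (n + p) - F n) (t : Fin m → ℕ) (b M₀ L : ℕ)
    (lam : ℕ → ℝ) (T : ℝ)
    (hlam : ∀ d, lam d ≠ 0 → ∀ p : ℕ, p.Prime → p ∣ d → 2 ^ 2 ^ J < p)
    (hsq : ∀ d, lam d ≠ 0 → Squarefree d)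
    (hW1 : 1 ≤ W) (hW : W ≤ 2 ^ 2 ^ J)
    (hρT : ∀ t ∈ TT R lam, (rs (rt F) (Dl t) : ℝ) ≤ T)
    (hC : ∀ (D a : ℕ), 1 ≤ D → (∀ p ∈ PS W (2 ^ 2 ^ J), ¬ p ∣ D) →
      |(((Ioc M₀ (M₀ + L)).filter (fun K => K % D = a % D ∧
      ∀ p ∈ PS W (2 ^ 2 ^ J), ∀ i, ¬ (p : ℤ) ∣ F ((W * (K + t i) + b : ℕ) : ℤ))).card : ℝ) -
      (L : ℝ) / D * ∏ p ∈ PS W (2 ^ 2 ^ J), (1 - (rhoT F W b t p : ℝ) / p)| ≤
      (1 / 2 : ℝ) ^ b₀ * ((L : ℝ) / D * ∏ p ∈ PS W (2 ^ 2 ^ J), (1 - (rhoT F W b t p : ℝ) / p)) +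
        ((2 : ℝ) ^ 2 ^ J) ^ (C * b₀))
    (x : Fin m → ℕ × ℕ) (hx : ∀ i, x i ∈ TT R lam)
    (hcop : ∀ i j, i ≠ j → Nat.Coprime (Dl (x i)) (Dl (x j))) :
    |cn F W (2 ^ 2 ^ J) b M₀ L t x -
      (L * ∏ p ∈ PS W (2 ^ 2 ^ J), (1 - (rhoT F W b t p : ℝ) / p)) *
        ∏ i, ((rs (rt F) (Dl (x i)) : ℝ) / (Dl (x i) : ℝ))| ≤
      (1 / 2 : ℝ) ^ b₀ * ((L * ∏ p ∈ PS W (2 ^ 2 ^ J), (1 - (rhoT F W b t p : ℝ) / p)) *
        ∏ i, ((rs (rt F) (Dl (x i)) : ℝ) / (Dl (x i) : ℝ))) + T ^ m * ((2 : ℝ) ^ 2 ^ J) ^ (C * b₀) := by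
  set V := ∏ p ∈ PS W (2 ^ 2 ^ J), (1 - (rhoT F W b t p : ℝ) / p) with hV
  have hDp : ∀ i, ∀ p : ℕ, p.Prime → p ∣ Dl (x i) → 2 ^ 2 ^ J < p := fun i p hp hpi =>
    Dl_primes hlam (hx i) p hp hpi
  have hD1 : ∀ i, 1 ≤ Dl (x i) := fun i => Dl_pos (hx i)
  have hDs : ∀ i, Squarefree (Dl (x i)) := fun i => Dl_sqf hsq (hx i)
  have hDW : ∀ i, Nat.Coprime (Dl (x i)) W := by
    intro i
    rw [Nat.coprime_iff_gcd_eq_one]
    by_contra hne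
    obtain ⟨p, hp, hpd⟩ := Nat.exists_prime_and_dvd hne
    have h1 := hDp i p hp (hpd.trans (Nat.gcd_dvd_left _ _))
    have h2 := Nat.le_of_dvd hW1 (hpd.trans (Nat.gcd_dvd_right _ _))
    omega
  set D := ∏ i, Dl (x i) with hD
  have hD0 : 0 < D := prod_pos fun i _ => hD1 i
  have hcard := hCls F hper W b m (fun i => Dl (x i)) t (fun i => ⟨hDs i, hDW i⟩) hcop
  have hcard' : (Cl F W b t (fun i => Dl (x i))).card = ∏ i, rs (rt F) (Dl (x i)) := by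
    rw [← hcard]
    unfold Cl
    congr!
  rw [cn_eq F hper W (2 ^ 2 ^ J) b M₀ L m t x hDs hD1, ← hD]
  have hcl : (((Cl F W b t (fun i => Dl (x i))).card : ℕ) : ℝ) = ∏ i, (rs (rt F) (Dl (x i)) : ℝ) := by
    rw [hcard']; push_cast; rfl
  have e1 : ∏ i, ((rs (rt F) (Dl (x i)) : ℝ) / (Dl (x i) : ℝ)) =
      ((Cl F W b t (fun i => Dl (x i))).card : ℝ) / D := by
    rw [prod_div_distrib, hcl, hD]
    push_cast
    rfl
  have h1 : ∀ r : ℕ, _ := fun r => hC D r hD0 (by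
    intro p hp hpd
    rw [mem_PS] at hp
    obtain ⟨i, _, hi⟩ := (Nat.Prime.prime hp.2.1).exists_mem_finset_dvd hpd
    have := hDp i p hp.2.1 hi
    omega)
  rw [e1]
  have e2 : ∀ f : ℕ → ℝ, (∑ r ∈ Cl F W b t (fun i => Dl (x i)), f r) -
        L * V * (((Cl F W b t (fun i => Dl (x i))).card : ℝ) / D) =
      ∑ r ∈ Cl F W b t (fun i => Dl (x i)), (f r - (L : ℝ) / D * V) := by
    intro f
    rw [sum_sub_distrib, sum_const, nsmul_eq_mul]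
    ring
  rw [e2]
  refine (abs_sum_le_sum_abs _ _).trans ?_
  refine (sum_le_sum (g := fun _ => (1 / 2 : ℝ) ^ b₀ * ((L : ℝ) / D * V) +
    ((2 : ℝ) ^ 2 ^ J) ^ (C * b₀)) fun r _ => ?_).trans ?_
  · refine le_trans (le_of_eq ?_) (h1 r)
    congr!
  rw [sum_const, nsmul_eq_mul]
  have h2 : (((Cl F W b t (fun i => Dl (x i))).card : ℕ) : ℝ) ≤ T ^ m := by
    rw [hcl]
    calc ∏ i, (rs (rt F) (Dl (x i)) : ℝ) ≤ ∏ _i : Fin m, T :=
          prod_le_prod (fun i _ => Nat.cast_nonneg _) (fun i _ => hρT _ (hx i))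
      _ = T ^ m := by rw [prod_const, card_univ, Fintype.card_fin]
  have h3 : (0 : ℝ) ≤ ((2 : ℝ) ^ 2 ^ J) ^ (C * b₀) := by positivity
  have h4 := mul_le_mul_of_nonneg_right h2 h3
  calc (((Cl F W b t (fun i => Dl (x i))).card : ℕ) : ℝ) *
        ((1 / 2 : ℝ) ^ b₀ * ((L : ℝ) / D * V) + ((2 : ℝ) ^ 2 ^ J) ^ (C * b₀)) =
      (1 / 2 : ℝ) ^ b₀ * (L * V * (((Cl F W b t (fun i => Dl (x i))).card : ℝ) / D)) +
        (((Cl F W b t (fun i => Dl (x i))).card : ℕ) : ℝ) * ((2 : ℝ) ^ 2 ^ J) ^ (C * b₀) := by ring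
    _ ≤ _ := by linarith

open Classical in
/-- the tuples with a common prime factor -/
theorem cnt_ncop (g W z m R N b M₀ L : ℕ) (F : ℤ → ℤ) (hS : Sys g F) (t : Fin m → ℕ)
    (hinj : Function.Injective t) (lam : ℕ → ℝ)
    (hlam : ∀ d, lam d ≠ 0 → ∀ p : ℕ, p.Prime → p ∣ d → z < p) (hgW : g ≤ W)
    (ht : ∀ i, 1 ≤ t i ∧ t i ≤ N) (hN : (W * N) ^ g ≤ z) (x : Fin m → ℕ × ℕ) (hx : ∀ i, x i ∈ TT R lam)
    (hcop : ¬ ∀ i j, i ≠ j → Nat.Coprime (Dl (x i)) (Dl (x j))) :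
    cn F W z b M₀ L t x = 0 := by
  unfold cn
  rw [Nat.cast_eq_zero, card_eq_zero, filter_eq_empty_iff]
  intro K _ hK
  push Not at hcop
  obtain ⟨i, j, hij, hc⟩ := hcop
  obtain ⟨p, hp, hpi, hpj⟩ := Nat.Prime.not_coprime_iff_dvd.1 hc
  have hpz : z < p := Dl_primes hlam (hx i) p hp hpi
  have h1 : (p : ℤ) ∣ F ((W * (K + t i) + b : ℕ) : ℤ) := (Int.natCast_dvd_natCast.2 hpi).trans (hK i)
  have h2 : (p : ℤ) ∣ F ((W * (K + t j) + b : ℕ) : ℤ) := (Int.natCast_dvd_natCast.2 hpj).trans (hK j)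
  obtain ⟨Δ, hΔ⟩ := hS.coll
  -- reduction to `t i < t j`
  have key : ∀ a c : ℕ, a < c → 1 ≤ a → c ≤ N → (p : ℤ) ∣ F ((W * (K + a) + b : ℕ) : ℤ) →
      (p : ℤ) ∣ F ((W * (K + c) + b : ℕ) : ℤ) → False := by
    intro a c hac ha hc h1 h2
    have hh : g ≤ W * (c - a) := hgW.trans (Nat.le_mul_of_pos_right W (by omega))
    obtain ⟨h3, h4, h5⟩ := hΔ (W * (c - a)) hh
    have e : ((W * (K + c) + b : ℕ) : ℤ) = ((W * (K + a) + b : ℕ) : ℤ) + ((W * (c - a) : ℕ) : ℤ) := by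
      have : W * (K + c) + b = W * (K + a) + b + W * (c - a) := by
        obtain ⟨k, rfl⟩ : ∃ k, c = a + k := ⟨c - a, by omega⟩
        rw [Nat.add_sub_cancel_left]
        ring
      rw [this]
      push_cast
      rfl
    rw [e] at h2
    have h6 := h5 p hp _ h1 h2
    have h7 := Nat.le_of_dvd h3 h6
    have h8 : (W * (c - a)) ^ g ≤ (W * N) ^ g := Nat.pow_le_pow_left (Nat.mul_le_mul_left W (by omega)) g
    omega
  have hne : t i ≠ t j := fun h => hij (hinj h)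
  rcases lt_or_gt_of_ne hne with h | h
  · exact key _ _ h (ht i).1 (ht j).2 h1 h2
  · exact key _ _ h (ht j).1 (ht i).2 h2 h1

/-- the density of a modulus is small -/
theorem rs_bound (g : ℕ) (r : ℕ → ℕ) (hr : ∀ p : ℕ, p.Prime → r p ≤ g) (d : ℕ) :
    rs r d ≤ (2 ^ g) ^ d.primeFactors.card := by
  unfold rs
  calc ∏ p ∈ d.primeFactors, r p ≤ ∏ p ∈ d.primeFactors, 2 ^ g := by
        apply prod_le_prod' 
        intro p hp
        exact (hr p (Nat.prime_of_mem_primeFactors hp)).trans (Nat.lt_two_pow_self).le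
    _ = _ := by rw [prod_const]

theorem omega_bound {R z : ℕ} {lam : ℕ → ℝ} (hlam : ∀ d, lam d ≠ 0 → ∀ p : ℕ, p.Prime → p ∣ d → z < p)
    {t : ℕ × ℕ} (ht : t ∈ TT R lam) : z ^ (Dl t).primeFactors.card ≤ R ^ 2 := by
  have h := mem_TT.1 ht
  have hpos : 1 ≤ Dl t := Dl_pos ht
  calc z ^ (Dl t).primeFactors.card = ∏ p ∈ (Dl t).primeFactors, z := by rw [prod_const]
    _ ≤ ∏ p ∈ (Dl t).primeFactors, p := prod_le_prod' fun p hp =>
        (Dl_primes hlam ht p (Nat.prime_of_mem_primeFactors hp) (Nat.dvd_of_mem_primeFactors hp)).le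
    _ ≤ Dl t := Nat.le_of_dvd hpos (Nat.prod_primeFactors_dvd _)
    _ ≤ t.1 * t.2 := Nat.le_of_dvd (Nat.mul_pos h.1.1.1 h.1.2.1) (Nat.lcm_dvd_mul _ _)
    _ ≤ R * R := Nat.mul_le_mul h.1.1.2 h.1.2.2
    _ = R ^ 2 := (pow_two R).symm

end Pool.Agent.Y814.RSZ
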