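import Pool.Agent.Y917.PSP.Maj4
import Pool.Agent.Y917.PSP.Maj5

/-!
Project RSZ (helper677), task MAJ, part 3: inequalities for large `ℓ = log H`.
-/

set_option autoImplicit false

open Finset Filter

namespace Pool.Agent.Y814.RSZ

open Pool.Agent.Y917.PSP (pow_eq_exp ev_exp_sqrt ev_log_sqrt)

theorem asym (M C g B1 B' R1 : ℕ) (hM : 1 ≤ M) (hC : 1 ≤ C) (θ η : ℝ) (hθ : 0 < θ) (hη : 0 < η) :
    ∀ᶠ l : ℝ in atTop, ∃ b : ℕ, C * (g * M + 1) ≤ b ∧ 1 / θ ≤ b ∧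
      16 * (C : ℝ) * (2 * M * b : ℕ) * Real.sqrt l < l ∧
      l ^ (2 * B' * (g + 1)) ≤ Real.exp (Real.sqrt l) ∧
      2 * (1 / 2 : ℝ) ^ (2 * M * b) * ((2 : ℝ) ^ b * ((1 + l) ^ 3 * l ^ B1)) ^ M ≤ η / 8 ∧
      2 * (16 * (M : ℝ) ^ 2 * Real.exp (-Real.sqrt l)) * ((2 : ℝ) ^ b * ((1 + l) ^ 3 * l ^ B1)) ^ M ≤ η / 8 ∧
      Real.exp (-(l / 4)) * ((2 : ℝ) ^ b * l ^ (2 * B1)) ^ M ≤ η / 8 ∧
      (R1 : ℝ) ≤ Real.exp (Real.sqrt l) ∧ 2 ≤ θ * l ∧ 2 ≤ l ∧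
      (2 : ℝ) ^ (32 * C * g * (2 * M * b)) ≤ l ^ ((2 * (4 + B1) + 1) * (64 * C * g * M)) := by
  set A : ℕ := 2 * (4 + B1) with hA
  filter_upwards [ev_log_sqrt (32 * C * M * A) (32 * C * M), ev_exp_sqrt (2 * B' * (g + 1)) 1,
    ev_exp_sqrt ((A + 1 + 3 + B1) * M) (2 * (16 * (M : ℝ) ^ 2) * 8 ^ M * (8 / η)),
    ev_exp_sqrt ((A + 1 + 2 * B1) * M) (8 / η), ev_exp_sqrt 0 R1,
    eventually_ge_atTop (2 / θ), eventually_ge_atTop (16 : ℝ),
    eventually_ge_atTop (2 * 8 ^ M * (8 / η)),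
    Real.tendsto_log_atTop.eventually_ge_atTop ((C * (g * M + 1) : ℕ) : ℝ),
    Real.tendsto_log_atTop.eventually_ge_atTop (1 / θ)]
    with l h1 h2 h3 h4 h5 h6 h7 h8 h9 h10
  have hl0 : (0 : ℝ) < l := by linarith
  have hl1 : (1 : ℝ) ≤ l := by linarith
  have hL0 : 0 ≤ Real.log l := Real.log_nonneg (by linarith)
  have hA1 : (1 : ℝ) ≤ A := by rw [hA]; push_cast; linarith [(Nat.cast_nonneg B1 : (0 : ℝ) ≤ B1)]
  have hAL : 0 ≤ (A : ℝ) * Real.log l := by positivity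
  have hMr : (1 : ℝ) ≤ M := by exact_mod_cast hM
  set b : ℕ := ⌈(A : ℝ) * Real.log l⌉₊ with hb
  have hb1 : (A : ℝ) * Real.log l ≤ b := Nat.le_ceil _
  have hb2 : (b : ℝ) ≤ A * Real.log l + 1 := (Nat.ceil_lt_add_one hAL).le
  have hs0 : 0 < Real.sqrt l := Real.sqrt_pos.2 hl0
  have hss : Real.sqrt l * Real.sqrt l = l := Real.mul_self_sqrt hl0.le
  have hC0 : (0 : ℝ) ≤ C := Nat.cast_nonneg C
  have hlb : Real.log l ≤ b := by
    refine le_trans ?_ hb1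
    nlinarith
  have hbig : ((C * (g * M + 1) : ℕ) : ℝ) ≤ b := h9.trans hlb
  have hbig' : C * (g * M + 1) ≤ b := by exact_mod_cast hbig
  have hlog2 : 0.6931471803 < Real.log 2 := Real.log_two_gt_d9
  have hlog2' : Real.log 2 < 0.6931471808 := Real.log_two_lt_d9
  -- the power of 2
  have h2b : l ^ (4 + B1) ≤ (2 : ℝ) ^ b := by
    have e1 : l ^ (4 + B1) = Real.exp (((4 + B1 : ℕ) : ℝ) * Real.log l) := pow_eq_exp l hl0 _
    have e2 : (2 : ℝ) ^ b = Real.exp (b * Real.log 2) := pow_eq_exp 2 (by norm_num) _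
    rw [e1, e2]
    apply Real.exp_le_exp.2
    have h12 : ((4 + B1 : ℕ) : ℝ) ≤ A * Real.log 2 := by
      rw [hA]; push_cast
      have : (0 : ℝ) ≤ B1 := Nat.cast_nonneg B1
      nlinarith
    calc ((4 + B1 : ℕ) : ℝ) * Real.log l ≤ (A * Real.log 2) * Real.log l := by gcongr
      _ = (A * Real.log l) * Real.log 2 := by ring
      _ ≤ b * Real.log 2 := by gcongr
  have hb2u : (2 : ℝ) ^ b ≤ l ^ (A + 1) := by
    have e2 : (2 : ℝ) ^ b = Real.exp (b * Real.log 2) := pow_eq_exp 2 (by norm_num) _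
    rw [e2]
    have e3 : (b : ℝ) * Real.log 2 ≤ A * Real.log l + Real.log 2 := by
      calc (b : ℝ) * Real.log 2 ≤ (A * Real.log l + 1) * Real.log 2 := by gcongr
        _ = (A * Real.log l) * Real.log 2 + Real.log 2 := by ring
        _ ≤ (A * Real.log l) * 1 + Real.log 2 := by
          gcongr
          linarith
        _ = _ := by ring
    calc Real.exp (b * Real.log 2) ≤ Real.exp (A * Real.log l + Real.log 2) := Real.exp_le_exp.2 e3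
      _ = l ^ A * 2 := by
        rw [Real.exp_add, pow_eq_exp l hl0, Real.exp_log (by norm_num : (0 : ℝ) < 2)]
      _ ≤ l ^ A * l := by gcongr; linarith
      _ = _ := by rw [pow_succ]
  have hE : 0 < Real.exp (Real.sqrt l) := Real.exp_pos _
  have hb2p : (0 : ℝ) < 2 ^ b := by positivity
  have e1l : (1 + l) ^ 3 ≤ 8 * l ^ 3 := by
    have : (1 + l) ^ 3 ≤ (2 * l) ^ 3 := pow_le_pow_left₀ (by linarith) (by linarith) 3
    calc (1 + l) ^ 3 ≤ (2 * l) ^ 3 := this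
      _ = 8 * l ^ 3 := by ring
  have e2l : (1 + l) ^ 3 * l ^ B1 ≤ 8 * l ^ (3 + B1) := by
    calc (1 + l) ^ 3 * l ^ B1 ≤ (8 * l ^ 3) * l ^ B1 := by gcongr
      _ = 8 * l ^ (3 + B1) := by rw [pow_add]; ring
  refine ⟨b, hbig', h10.trans hlb, ?_, ?_, ?_, ?_, ?_, ?_, ?_, by linarith, ?_⟩
  · have e1 : 16 * (C : ℝ) * (2 * M * b : ℕ) ≤ 32 * C * M * A * Real.log l + 32 * C * M := by
      calc 16 * (C : ℝ) * (2 * M * b : ℕ) = 32 * C * M * b := by push_cast; ring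
        _ ≤ 32 * C * M * (A * Real.log l + 1) := by gcongr
        _ = _ := by ring
    calc 16 * (C : ℝ) * (2 * M * b : ℕ) * Real.sqrt l < Real.sqrt l * Real.sqrt l := by
          apply mul_lt_mul_of_pos_right _ hs0
          linarith
      _ = l := hss
  · linarith
  · -- the error from the fundamental lemma
    have e1 : (2 : ℝ) ^ b * ((1 + l) ^ 3 * l ^ B1) ≤ 2 ^ b * (8 * l ^ (3 + B1)) := by gcongr
    have e2 : ((1 / 2 : ℝ) ^ (2 * M * b)) = ((1 / 2 : ℝ) ^ (2 * b)) ^ M := by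
      rw [← pow_mul]; congr 1; ring
    have e3 : (1 / 2 : ℝ) ^ (2 * b) * (2 ^ b * (8 * l ^ (3 + B1))) * l ≤ 8 := by
      have e4 : (1 / 2 : ℝ) ^ (2 * b) = (1 / 2 : ℝ) ^ b * (1 / 2) ^ b := by
        rw [two_mul, pow_add]
      have e5 : (1 / 2 : ℝ) ^ b * 2 ^ b = 1 := by
        rw [← mul_pow]; norm_num
      have e6 : (1 / 2 : ℝ) ^ b * l ^ (4 + B1) ≤ 1 := by
        calc (1 / 2 : ℝ) ^ b * l ^ (4 + B1) ≤ (1 / 2 : ℝ) ^ b * 2 ^ b := by gcongr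
          _ = 1 := e5
      calc (1 / 2 : ℝ) ^ (2 * b) * (2 ^ b * (8 * l ^ (3 + B1))) * l =
          8 * ((1 / 2 : ℝ) ^ b * 2 ^ b) * ((1 / 2) ^ b * (l ^ (3 + B1) * l)) := by rw [e4]; ring
        _ = 8 * ((1 / 2) ^ b * l ^ (4 + B1)) := by
          rw [e5, ← pow_succ, show 3 + B1 + 1 = 4 + B1 by ring]; ring
        _ ≤ 8 * 1 := by gcongr
        _ = 8 := mul_one _
    have e7 : (1 / 2 : ℝ) ^ (2 * b) * (2 ^ b * (8 * l ^ (3 + B1))) ≤ 8 / l := by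
      rw [le_div_iff₀ hl0]
      exact e3
    calc 2 * (1 / 2 : ℝ) ^ (2 * M * b) * ((2 : ℝ) ^ b * ((1 + l) ^ 3 * l ^ B1)) ^ M ≤
        2 * (1 / 2 : ℝ) ^ (2 * M * b) * ((2 : ℝ) ^ b * (8 * l ^ (3 + B1))) ^ M := by gcongr
      _ = 2 * ((1 / 2 : ℝ) ^ (2 * b) * (2 ^ b * (8 * l ^ (3 + B1)))) ^ M := by
        rw [e2, mul_assoc, ← mul_pow]
      _ ≤ 2 * (8 / l) ^ M := by gcongr
      _ = 2 * 8 ^ M / l ^ M := by rw [div_pow]; ring
      _ ≤ 2 * 8 ^ M / l ^ 1 := by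
        gcongr
      _ = 2 * 8 ^ M / l := by rw [pow_one]
      _ ≤ η / 8 := by
        rw [div_le_iff₀ hl0]
        have : 2 * 8 ^ M * (8 / η) * (η / 8) ≤ l * (η / 8) := by gcongr
        have e5 : 2 * 8 ^ M * (8 / η) * (η / 8) = 2 * 8 ^ M := by field_simp
        linarith
  · have e1 : (2 : ℝ) ^ b * ((1 + l) ^ 3 * l ^ B1) ≤ l ^ (A + 1) * (8 * l ^ (3 + B1)) := by gcongr
    have e2 : (l ^ (A + 1) * (8 * l ^ (3 + B1))) ^ M = 8 ^ M * l ^ ((A + 1 + 3 + B1) * M) := by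
      rw [show l ^ (A + 1) * (8 * l ^ (3 + B1)) = 8 * l ^ (A + 1 + 3 + B1) by
        rw [show A + 1 + 3 + B1 = (A + 1) + (3 + B1) by ring, pow_add l (A + 1)]; ring, mul_pow, ← pow_mul]
    have e3 : 2 * (16 * (M : ℝ) ^ 2 * Real.exp (-Real.sqrt l)) *
        ((2 : ℝ) ^ b * ((1 + l) ^ 3 * l ^ B1)) ^ M ≤
        2 * (16 * (M : ℝ) ^ 2 * Real.exp (-Real.sqrt l)) * (8 ^ M * l ^ ((A + 1 + 3 + B1) * M)) := by
      rw [← e2]
      gcongr
    refine e3.trans ?_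
    rw [Real.exp_neg]
    have e4 : 2 * (16 * (M : ℝ) ^ 2 * (Real.exp (Real.sqrt l))⁻¹) *
        (8 ^ M * l ^ ((A + 1 + 3 + B1) * M)) =
        (2 * (16 * (M : ℝ) ^ 2) * 8 ^ M * (8 / η) * l ^ ((A + 1 + 3 + B1) * M)) * (η / 8) /
          Real.exp (Real.sqrt l) := by
      field_simp
    rw [e4, div_le_iff₀ hE]
    have e5 : 0 < η / 8 := by positivity
    calc (2 * (16 * (M : ℝ) ^ 2) * 8 ^ M * (8 / η) * l ^ ((A + 1 + 3 + B1) * M)) * (η / 8) ≤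
        Real.exp (Real.sqrt l) * (η / 8) := by gcongr
      _ = _ := mul_comm _ _
  · have e1 : Real.sqrt l ≤ l / 4 := by
      have e2 : 4 ≤ Real.sqrt l := by
        apply Real.le_sqrt_of_sq_le
        norm_num
        linarith
      nlinarith
    have e3 : Real.exp (-(l / 4)) ≤ Real.exp (-Real.sqrt l) := Real.exp_le_exp.2 (by linarith)
    calc Real.exp (-(l / 4)) * ((2 : ℝ) ^ b * l ^ (2 * B1)) ^ M ≤
        Real.exp (-Real.sqrt l) * (l ^ (A + 1) * l ^ (2 * B1)) ^ M := by gcongr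
      _ = Real.exp (-Real.sqrt l) * l ^ ((A + 1 + 2 * B1) * M) := by
        rw [← pow_add, ← pow_mul]
      _ ≤ η / 8 := by
          rw [Real.exp_neg, inv_mul_le_iff₀ hE]
          have e4 : 8 / η * l ^ ((A + 1 + 2 * B1) * M) * (η / 8) ≤ Real.exp (Real.sqrt l) * (η / 8) := by
            gcongr
          have e5 : 8 / η * l ^ ((A + 1 + 2 * B1) * M) * (η / 8) = l ^ ((A + 1 + 2 * B1) * M) := by
            field_simp
          linarith
  · simpa using h5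
  · rw [div_le_iff₀ hθ] at h6
    linarith
  · calc (2 : ℝ) ^ (32 * C * g * (2 * M * b)) = (2 ^ b) ^ (64 * C * g * M) := by
          rw [← pow_mul]; congr 1; ring
      _ ≤ (l ^ (A + 1)) ^ (64 * C * g * M) := by gcongr
      _ = _ := by rw [← pow_mul]

/-- the elementary bound for the size of a modulus -/
theorem exp_small (g C M b k : ℕ) (θ lz l lR : ℝ) (hM : 1 ≤ M) (hC : 1 ≤ C) (hθ : 0 < θ)
    (hθ2 : θ ≤ 1 / (64 * C * M * (g + 1))) (hlz : 0 < lz) (hk : k * lz ≤ 2 * lR) (hlR : lR ≤ θ * l)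
    (hl : l < 16 * C * (2 * M * b : ℕ) * lz) : g * k ≤ b := by
  have hMr : (1 : ℝ) ≤ M := by exact_mod_cast hM
  have hCr : (1 : ℝ) ≤ C := by exact_mod_cast hC
  have hg0 : (0 : ℝ) ≤ g := Nat.cast_nonneg g
  have hb0 : (0 : ℝ) ≤ b := Nat.cast_nonneg b
  have h1 : (k : ℝ) * lz ≤ 2 * (θ * (16 * C * (2 * M * b : ℕ) * lz)) := by
    have : θ * l ≤ θ * (16 * C * (2 * M * b : ℕ) * lz) := by gcongr
    linarith
  have h2 : (k : ℝ) ≤ 64 * C * M * θ * b := by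
    have : (k : ℝ) * lz ≤ (64 * C * M * θ * b) * lz := by
      calc (k : ℝ) * lz ≤ 2 * (θ * (16 * C * (2 * M * b : ℕ) * lz)) := h1
        _ = _ := by push_cast; ring
    exact le_of_mul_le_mul_right this hlz
  have h3 : 64 * (C : ℝ) * M * θ * (g + 1) ≤ 1 := by
    rw [le_div_iff₀ (by positivity)] at hθ2
    linarith
  have hQ : 0 ≤ 64 * (C : ℝ) * M * θ * b := by positivity
  have h4 : (g : ℝ) * k ≤ b := by
    calc (g : ℝ) * k ≤ (g + 1) * (64 * C * M * θ * b) := by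
          have : (g : ℝ) * k ≤ g * (64 * C * M * θ * b) := by gcongr
          linarith
      _ = (64 * (C : ℝ) * M * θ * (g + 1)) * b := by ring
      _ ≤ 1 * b := by gcongr
      _ = b := one_mul _
  exact_mod_cast h4

end Pool.Agent.Y814.RSZ
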